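import Pool.Agent.H61.HB.Stmts3

/-! Project HB (MP_91403e_an), row SCB: scaling of solutions. -/

set_option autoImplicit false

namespace HB

theorem scb_thm (hSCA : SCAStmt) (hMMB : MMBStmt) : SCBStmt := by
  intro n ν s T U hn hν hs hT hsol
  obtain ⟨-, hb, hsub, hadv⟩ := hSCA n hn
  obtain ⟨-, -, -, hnn, -, hmm⟩ := hMMB
  have hn0 : (0 : ℝ) < (n : ℝ) := by exact_mod_cast hn
  have hn4 : (0 : ℝ) < (n : ℝ) ^ 4 := by positivity
  have hs0 : 0 ≤ s := by linarith
  have hmaps : Set.MapsTo (fun r : ℝ => (n : ℝ) ^ 4 * r) (Set.Icc 0 T)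
      (Set.Icc 0 ((n : ℝ) ^ 4 * T)) := by
    intro r hr
    exact ⟨mul_nonneg hn4.le hr.1, mul_le_mul_of_nonneg_left hr.2 hn4.le⟩
  obtain ⟨⟨hM, hC⟩, hE⟩ := hsol
  refine ⟨⟨fun t ht => ?_, fun t ht => ?_⟩, fun j k t ht => ?_⟩
  · exact ((hb _).2.2 s hs0 (hM _ (hmaps ht))).1
  · have h1 := hC _ (hmaps ht)
    have h2 : Filter.Tendsto (fun r : ℝ => (n : ℝ) ^ 4 * r) (nhdsWithin t (Set.Icc 0 T))
        (nhdsWithin ((n : ℝ) ^ 4 * t) (Set.Icc 0 ((n : ℝ) ^ 4 * T))) := by
      apply tendsto_nhdsWithin_of_tendsto_nhds_of_eventually_within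
      · exact ((continuous_const.mul continuous_id).tendsto t).mono_left nhdsWithin_le_nhds
      · exact Filter.eventually_of_mem self_mem_nhdsWithin (fun r hr => hmaps hr)
    have h3 := (h1.comp h2).const_mul ((n : ℝ) ^ (2 * s + 6))
    rw [mul_zero] at h3
    refine squeeze_zero' (Filter.Eventually.of_forall fun r => hnn _ _) ?_ h3
    filter_upwards [self_mem_nhdsWithin] with r hr
    have h4 := (hmm s _ _ (hM _ (hmaps hr)) (hM _ (hmaps ht))).1
    have h5 := ((hb _).2.2 s hs0 h4).2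
    rw [hsub] at h5
    exact h5
  · have hA : adv (scl n (U ((n : ℝ) ^ 4 * t))) (scl n (U ((n : ℝ) ^ 4 * t))) j k =
        (n : ℂ) ^ 4 * scl n (adv (U ((n : ℝ) ^ 4 * t)) (U ((n : ℝ) ^ 4 * t))) j k := by
      rw [hadv]
    rw [hA]
    by_cases hk : (n : ℤ) ∣ k.1 ∧ (n : ℤ) ∣ k.2
    · have h1 := hE j (k.1 / n, k.2 / n) _ (hmaps ht)
      have h2 : HasDerivWithinAt (fun r : ℝ => (n : ℝ) ^ 4 * r) ((n : ℝ) ^ 4) (Set.Icc 0 T) t := by
        have := ((hasDerivAt_id t).const_mul ((n : ℝ) ^ 4)).hasDerivWithinAt (s := Set.Icc 0 T)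
        rw [mul_one] at this
        exact this
      have h3 := (HasDerivWithinAt.scomp t h1 h2 hmaps).const_mul ((n : ℂ) ^ 3)
      have hsq : sq k = (n : ℝ) ^ 2 * sq (k.1 / n, k.2 / n) := by
        obtain ⟨⟨x, hx⟩, ⟨y, hy⟩⟩ := hk
        have hnz : (n : ℤ) ≠ 0 := by exact_mod_cast (by omega : n ≠ 0)
        unfold sq
        simp only
        rw [hx, hy, Int.mul_ediv_cancel_left _ hnz, Int.mul_ediv_cancel_left _ hnz]
        push_cast
        ring
      have e1 : ∀ W : V, scl n W j k = (n : ℂ) ^ 3 * W j (k.1 / n, k.2 / n) := by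
        intro W
        unfold scl
        rw [if_pos hk]
      have e2 : (fun r => scl n (U ((n : ℝ) ^ 4 * r)) j k) =
          fun r => (n : ℂ) ^ 3 * ((fun r => U r j (k.1 / n, k.2 / n)) ∘
            (fun r : ℝ => (n : ℝ) ^ 4 * r)) r := by
        funext r
        rw [e1]
        rfl
      rw [e2, e1, e1, hsq]
      refine h3.congr_deriv ?_
      rw [Complex.real_smul]
      push_cast
      ring
    · have e1 : ∀ W : V, scl n W j k = 0 := by
        intro W
        unfold scl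
        rw [if_neg hk]
      have e2 : (fun r => scl n (U ((n : ℝ) ^ 4 * r)) j k) = fun _ => (0 : ℂ) := by
        funext r
        rw [e1]
      rw [e2, e1, e1]
      refine (hasDerivWithinAt_const t (Set.Icc 0 T) (0 : ℂ)).congr_deriv ?_
      ring

end HB
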