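import Pool.Agent.H61.HB.Stmts

/-! Project HB, row TRC: the other component of a triangular field. -/

set_option autoImplicit false

namespace HB

theorem TRC_thm (hCAN : CANStmt) (hSYM : SYMStmt) (hTRS : TRSStmt) (hDIV : DIVStmt)
    (hLIN : LINStmt) : TRCStmt := by
  intro m u hm hu hrl _
  obtain ⟨-, -, -, hmem⟩ := hLIN
  obtain ⟨-, hdv, -⟩ := hDIV
  have ha : MemS 2 (lin ![-m.2, m.1] u) := hmem _ 2 u hu
  have hb : MemS 2 (lin ![m.1, m.2] u) := hmem _ 2 u hu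
  have har : ∀ k, lin ![-m.2, m.1] u (-k) = (starRingEnd ℂ) (lin ![-m.2, m.1] u k) := by
    intro k
    unfold lin
    rw [map_sum]
    refine Finset.sum_congr rfl (fun j _ => ?_)
    rw [map_mul, Complex.conj_ofReal, hrl j k]
  set a : Z2 → ℂ := lin ![-m.2, m.1] u with hadef
  set b : Z2 → ℂ := lin ![m.1, m.2] u with hbdef
  have hq : 0 < m.1 ^ 2 + m.2 ^ 2 := by
    by_contra h
    have h1 : m.1 ^ 2 = 0 := by nlinarith [sq_nonneg m.1, sq_nonneg m.2]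
    have h2 : m.2 ^ 2 = 0 := by nlinarith [sq_nonneg m.1, sq_nonneg m.2]
    exact hm (Prod.ext (pow_eq_zero_iff (two_ne_zero) |>.1 h1)
      (pow_eq_zero_iff (two_ne_zero) |>.1 h2))
  set q : ℝ := m.1 ^ 2 + m.2 ^ 2 with hqdef
  let g1 : Z2 → ℂ := fun l => Complex.I * ((-m.2 * l.1 + m.1 * l.2 : ℝ) : ℂ) * a l
  let g2 : Z2 → ℂ := fun l => Complex.I * ((m.1 * l.1 + m.2 * l.2 : ℝ) : ℂ) * b l
  obtain ⟨hg1s, -⟩ := hdv (-m.2, m.1) a ha
  obtain ⟨hg2s, hg2b⟩ := hdv (m.1, m.2) b hb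
  have hg1s' : Summable (fun l => ‖g1 l‖ ^ 2) := hg1s
  have hg2s' : Summable (fun l => ‖g2 l‖ ^ 2) := hg2s
  have hg2b' : ∑' l, ‖g2 l‖ ^ 2 ≤ q * dsS b := hg2b
  obtain ⟨hs1, -⟩ := hTRS g1 a hg1s' ha
  obtain ⟨hs2, hn2⟩ := hTRS g2 a hg2s' ha
  have hre1 : (tr3 g1 a).re = 0 := hSYM (-m.2, m.1) a ha har
  have hqC : ((q : ℝ) : ℂ) ≠ 0 := by exact_mod_cast hq.ne'
  have hkey : ∀ l, dvg u l = (((1 / q : ℝ)) : ℂ) * (g1 l + g2 l) := by
    intro l
    have h1 : ((q : ℝ) : ℂ) * dvg u l = g1 l + g2 l := by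
      simp only [dvg, g1, g2, hadef, hbdef, lin, Fin.sum_univ_two, co, hqdef]
      simp only [Matrix.cons_val_zero, Matrix.cons_val_one, if_true, one_ne_zero, if_false]
      push_cast
      ring
    rw [← h1]
    push_cast
    field_simp
  have htr : tr3 (dvg u) a = (((1 / q : ℝ)) : ℂ) * (tr3 g1 a + tr3 g2 a) := by
    unfold tr3
    rw [← Summable.tsum_add hs1.of_norm hs2.of_norm, ← tsum_mul_left]
    refine tsum_congr (fun x => ?_)
    rw [hkey]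
    ring
  have hcan := hCAN u a hu hrl ha
  have h3 : -2 * prd a (dot u a) = (1 / q) * (tr3 g2 a).re := by
    have h4 : (tr3 (dvg u) a).re = (1 / q) * (tr3 g2 a).re := by
      rw [htr, Complex.re_ofReal_mul, Complex.add_re, hre1, zero_add]
    linarith
  rw [h3]
  have hdb : 0 ≤ dsS b := by
    unfold dsS
    exact tsum_nonneg (fun k => by positivity)
  have h5 : (tr3 g2 a).re ≤ √(∑' l, ‖g2 l‖ ^ 2) * (2 * √cW * √(dsS a)) * √(flS a) :=
    (Complex.re_le_norm _).trans hn2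
  have h6 : √(∑' l, ‖g2 l‖ ^ 2) ≤ √q * √(dsS b) := by
    rw [← Real.sqrt_mul hq.le]
    exact Real.sqrt_le_sqrt hg2b'
  have h7 : (tr3 g2 a).re ≤ √q * √(dsS b) * (2 * √cW * √(dsS a)) * √(flS a) := by
    refine h5.trans ?_
    have h8 : 0 ≤ (2 * √cW * √(dsS a)) * √(flS a) := by positivity
    nlinarith [mul_le_mul_of_nonneg_right h6 h8]
  have h9 : (1 / q) * √q = 1 / √q := by
    rw [div_mul_eq_mul_div, one_mul, div_eq_div_iff hq.ne' (Real.sqrt_pos.2 hq).ne', one_mul,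
      Real.mul_self_sqrt hq.le]
  calc (1 / q) * (tr3 g2 a).re
      ≤ (1 / q) * (√q * √(dsS b) * (2 * √cW * √(dsS a)) * √(flS a)) :=
        mul_le_mul_of_nonneg_left h7 (by positivity)
    _ = (1 / q * √q) * √(dsS b) * (2 * √cW * √(dsS a)) * √(flS a) := by ring
    _ = _ := by rw [h9]

end HB
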