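import Pool.Agent.H91.HB.TWC

/-! Project HB (MP_91403e_an), row TWB: the transport term. -/

set_option autoImplicit false

namespace HB

theorem twb_thm (hTWA : TWAStmt) (hGRF : GRFStmt) : TWBStmt := by
  intro z f hz hrl hf
  obtain ⟨g1, -, -⟩ := hGRF
  obtain ⟨-, hs2, -, -, -, -⟩ := g1 f hf
  set a : Z2 → ℝ := fun l => √(∑ i, ‖off (z i) l‖ ^ 2) with ha
  set b : Z2 → ℝ := fun p => √(sq p) * ‖f p‖ with hb
  have ha0 : ∀ l, 0 ≤ a l := fun l => Real.sqrt_nonneg _
  have hb0 : ∀ l, 0 ≤ b l := fun l => mul_nonneg (Real.sqrt_nonneg _) (norm_nonneg _)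
  have ha2 : ∀ l, a l ^ 2 = ∑ i, ‖off (z i) l‖ ^ 2 := fun l =>
    Real.sq_sqrt (Finset.sum_nonneg fun i _ => sq_nonneg _)
  have hb2 : ∀ l, b l ^ 2 = sq l * ‖f l‖ ^ 2 := fun l => by
    rw [hb]
    simp only
    rw [mul_pow, Real.sq_sqrt (twc_sq_nonneg l)]
  have hoff : ∀ i, Summable fun l => ‖off (z i) l‖ ^ 2 := fun i =>
    (g1 (z i) (hz i)).2.2.2.2.1
  have hsa : Summable fun l => a l ^ 2 := by
    simp only [ha2]
    exact summable_sum fun i _ => hoff i
  have hsb : Summable fun l => b l ^ 2 := by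
    simp only [hb2]
    exact hs2
  have hta : ∑' l, a l ^ 2 = flu z := by
    simp only [ha2]
    unfold flu flS
    exact Summable.tsum_finsetSum fun i _ => hoff i
  have htb : ∑' l, b l ^ 2 = grS f := by
    simp only [hb2]
    rfl
  obtain ⟨hF, hFle⟩ := hTWA f a b hf ha0 hb0 hsa hsb
  rw [hta, htb] at hFle
  have hconv : ∀ k : Z2, Summable fun l => a l * b (k - l) := by
    intro k
    have h1 : Summable fun l => b (k - l) ^ 2 := by
      have := (Equiv.subLeft k).summable_iff.mpr hsb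
      exact this
    exact (twc_cs a (fun l => b (k - l)) ha0 (fun l => hb0 _) hsa h1).1
  have hm0 : ∀ k : Z2, ‖trm z f k 0‖ ≤ √(mu z) * b k := by
    intro k
    have := twc_trm z f k 0
    rw [sub_zero] at this
    exact this
  have hml : ∀ k l : Z2, l ≠ 0 → ‖trm z f k l‖ ≤ a l * b (k - l) := by
    intro k l hl
    have h2 := twc_trm z f k l
    have h3 : a l = √(∑ i, ‖z i l‖ ^ 2) := by
      rw [ha]
      simp only [off, if_neg hl]
    rw [h3]
    exact h2
  have hsum : ∀ k : Z2, Summable fun l => trm z f k l := by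
    intro k
    refine Summable.of_norm_bounded
      (g := fun l : Z2 => (if l = 0 then √(mu z) * b k else 0) + a l * b (k - l))
      ((hasSum_ite_eq 0 _).summable.add (hconv k)) (fun l => ?_)
    by_cases hl : l = 0
    · subst hl
      rw [if_pos rfl]
      have h2 := hm0 k
      have h3 : 0 ≤ a 0 * b (k - 0) := mul_nonneg (ha0 _) (hb0 _)
      linarith
    · rw [if_neg hl, zero_add]
      exact hml k l hl
  have hdot : ∀ k : Z2, dot z f k = trm z f k 0 + ∑' l, ite (l = 0) 0 (trm z f k l) :=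
    fun k => (hsum k).tsum_eq_add_tsum_ite 0
  have hrest : ∀ k : Z2, ‖∑' l, ite (l = 0) 0 (trm z f k l)‖ ≤ ∑' l, a l * b (k - l) := by
    intro k
    refine tsum_of_norm_bounded (hconv k).hasSum (fun l => ?_)
    by_cases hl : l = 0
    · rw [if_pos hl, norm_zero]
      exact mul_nonneg (ha0 _) (hb0 _)
    · rw [if_neg hl]
      exact hml k l hl
  have hre : ∀ k : Z2, ((starRingEnd ℂ) (off f k) * trm z f k 0).re = 0 := by
    intro k
    by_cases hk : k = 0
    · have h1 : off f k = 0 := if_pos hk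
      rw [h1, map_zero, zero_mul, Complex.zero_re]
    · have h1 : off f k = f k := if_neg hk
      have hz0 : ∀ i, (z i 0).im = 0 := by
        intro i
        have h2 := hrl i 0
        rw [neg_zero] at h2
        have h3 := congrArg Complex.im h2
        rw [Complex.conj_im] at h3
        linarith
      rw [h1]
      unfold trm
      rw [sub_zero, Fin.sum_univ_two]
      simp only [Complex.mul_re, Complex.mul_im, Complex.add_re, Complex.add_im, Complex.conj_re,
        Complex.conj_im, Complex.I_re, Complex.I_im, Complex.ofReal_re, Complex.ofReal_im, hz0]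
      ring
  have hFk : ∀ k : Z2, ∑' l, ‖off f k‖ / sq k * (a l * b (k - l)) =
      ‖off f k‖ / sq k * ∑' l, a l * b (k - l) := fun k => tsum_mul_left
  have hpt : ∀ k : Z2, ‖((starRingEnd ℂ) (off f k) * dot z f k).re / sq k‖ ≤
      ∑' l, ‖off f k‖ / sq k * (a l * b (k - l)) := by
    intro k
    rw [hFk, hdot, mul_add, Complex.add_re, hre, zero_add, Real.norm_eq_abs, abs_div,
      abs_of_nonneg (twc_sq_nonneg k)]
    have h2 : |((starRingEnd ℂ) (off f k) * ∑' l, ite (l = 0) 0 (trm z f k l)).re| ≤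
        ‖off f k‖ * ∑' l, a l * b (k - l) := by
      refine (Complex.abs_re_le_norm _).trans ?_
      rw [norm_mul, RCLike.norm_conj]
      exact mul_le_mul_of_nonneg_left (hrest k) (norm_nonneg _)
    calc |((starRingEnd ℂ) (off f k) * ∑' l, ite (l = 0) 0 (trm z f k l)).re| / sq k
        ≤ ‖off f k‖ * (∑' l, a l * b (k - l)) / sq k :=
          div_le_div_of_nonneg_right h2 (twc_sq_nonneg k)
      _ = ‖off f k‖ / sq k * ∑' l, a l * b (k - l) := by ring
  have hfin := tsum_of_norm_bounded hF.prod.hasSum hpt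
  rw [Real.norm_eq_abs] at hfin
  refine hfin.trans ?_
  have h7 : ∑' k : Z2, ∑' l : Z2, ‖off f k‖ / sq k * (a l * b (k - l)) =
      ∑' x : Z2 × Z2, ‖off f x.1‖ / sq x.1 * (a x.2 * b (x.1 - x.2)) := by
    rw [hF.tsum_prod]
  have h9 : ∑' k : Z2, ∑' l : Z2, ‖off f k‖ / sq k * (a l * b (k - l)) ≤
      2 * √cW * √(flS f) * (√(flu z) * √(grS f)) := by
    rw [h7]
    exact hFle
  exact h9

end HB
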